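import Pool.Agent.R544.MG.Ex

/-!
# An edge-interdiction path game on a layered graph without Markovian equilibrium

The graph has the layers `{0}, {1, 2, 3}, {4, 5}, {6, 7}, {8, 9}`, fourteen edges and thirteen
paths.  The value of the game is `2 / 5`, and the attacker has only one optimal strategy, whose
choice at the vertex `4` depends on the history: coming from `1` he goes on to `6` and to `7` with
positive probability, coming from `2` or `3` always to `6`.
-/

namespace Pool.Agent.Results.MP_41928e_lc.NoMarkovianNE

open Pool.Agent.R544.MG Pool.Agent.R544.MG.LayeredGraph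

/-- Not every layered graph has a Markovian Nash equilibrium: there is a layered graph which has a
Nash equilibrium and such that in no Nash equilibrium the strategy of the attacker is Markovian. -/
theorem result :
    (¬ ∀ G : LayeredGraph, ∃ xd xa : G.Path → ℝ,
      IsNash xd xa ∧ IsMarkovian xd ∧ IsMarkovian xa) ∧
    ∃ G : LayeredGraph, (∃ xd xa : G.Path → ℝ, IsNash xd xa) ∧
      ∀ xd xa : G.Path → ℝ, IsNash xd xa → ¬ IsMarkovian xa := by
  refine ⟨fun h => ?_, G₀, ⟨w₀, w₀, nash_w₀⟩, fun _ _ => not_markovian⟩
  obtain ⟨xd, xa, h1, -, h2⟩ := h G₀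
  exact not_markovian h1 h2

end Pool.Agent.Results.MP_41928e_lc.NoMarkovianNE
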